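import Pool.Agent.Q274.HD.Stm2

/-!
# Project HD of helper274: elementary facts on representations and forms (used in several jobs)
-/

set_option autoImplicit false
set_option linter.unusedVariables false

namespace Pool.Agent.Q206.HD

open NumberField
open Pool.Agent.Q274.BKC (GK OB Dec Ine)
open Pool.Agent.Q274.HD
open scoped Matrix

theorem toV_inj {t t' : T2} (h : toV t = toV t') : t = t' := by
  funext i
  have := congrFun h i
  exact Subtype.ext this

theorem toV_add (t t' : T2) : toV (t + t') = toV t + toV t' := by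
  funext i
  simp [toV]

theorem toV_zero : toV 0 = 0 := by
  funext i
  simp [toV]

/-- the action on lattice vectors -/
theorem toV_mulVec (ρ : Rep) (σ : GQ) (t : T2) : toV (ρ σ *ᵥ t) = act ρ σ (toV t) := by
  funext i
  simp [toV, act, Matrix.mulVec, dotProduct]

theorem act_one (ρ : Rep) (v : V2) : act ρ 1 v = v := by
  funext i
  simp only [act, map_one, Matrix.one_apply]
  rw [Finset.sum_eq_single i]
  · simp
  · intro j _ hj
    rw [if_neg (Ne.symm hj)]
    simp
  · intro h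
    exact absurd (Finset.mem_univ i) h

theorem act_mul (ρ : Rep) (σ τ : GQ) (v : V2) : act ρ (σ * τ) v = act ρ σ (act ρ τ v) := by
  funext i
  simp only [act, map_mul, Matrix.mul_apply, PadicInt.coe_sum, PadicInt.coe_mul, Finset.sum_mul,
    Finset.mul_sum]
  rw [Finset.sum_comm]
  apply Finset.sum_congr rfl
  intro j _
  apply Finset.sum_congr rfl
  intro k _
  ring

theorem act_zero (ρ : Rep) (σ : GQ) : act ρ σ 0 = 0 := by
  funext i
  simp [act]

/-- the action as a linear map -/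
noncomputable def actL (ρ : Rep) (σ : GQ) : V2 →ₗ[ℚ_[2]] V2 where
  toFun := act ρ σ
  map_add' := act_add ρ σ
  map_smul' := act_smul ρ σ

theorem act_sub (ρ : Rep) (σ : GQ) (v v' : V2) : act ρ σ (v - v') = act ρ σ v - act ρ σ v' :=
  (actL ρ σ).map_sub v v'

theorem act_cont {ρ : Rep} (hρ : Continuous ρ) (v : V2) : Continuous fun σ => act ρ σ v := by
  apply continuous_pi
  intro i
  apply continuous_finsetSum
  intro j _
  apply Continuous.mul _ continuous_const
  have h1 : Continuous fun σ => ρ σ i j := (continuous_apply j).comp ((continuous_apply i).comp hρ)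
  exact (PadicInt.isOpenEmbedding_coe (p := 2)).continuous.comp h1

theorem mem_dec {Q : Ideal ZB} {σ : GQ} : σ ∈ Dec Q ↔ ∀ x : ZB, σ • x ∈ Q ↔ x ∈ Q := Iff.rfl

theorem mem_ine {Q : Ideal ZB} {σ : GQ} : σ ∈ Ine Q ↔ ∀ x : ZB, σ • x - x ∈ Q := Iff.rfl

theorem one_dec (Q : Ideal ZB) : (1 : GQ) ∈ Dec Q := fun x => by rw [one_smul]

theorem mul_dec {Q : Ideal ZB} {σ τ : GQ} (h : σ ∈ Dec Q) (h' : τ ∈ Dec Q) : σ * τ ∈ Dec Q :=
  fun x => by rw [mul_smul, h, h']

theorem inv_dec {Q : Ideal ZB} {σ : GQ} (h : σ ∈ Dec Q) : σ⁻¹ ∈ Dec Q := fun x => by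
  have := h (σ⁻¹ • x)
  rw [smul_inv_smul] at this
  exact this.symm

theorem ine_dec {Q : Ideal ZB} {σ : GQ} (h : σ ∈ Ine Q) : σ ∈ Dec Q := fun x => by
  constructor
  · intro h1
    have := Q.sub_mem h1 (h x)
    rwa [sub_sub_cancel] at this
  · intro h1
    have := Q.add_mem (h x) h1
    rwa [sub_add_cancel] at this

/-- the inertia group is normal in the decomposition group -/
theorem conj_ine {Q : Ideal ZB} {σ τ : GQ} (h : σ ∈ Dec Q) (h' : τ ∈ Ine Q) :
    σ⁻¹ * τ * σ ∈ Ine Q := fun x => by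
  have h1 := h' (σ • x)
  have h2 : (σ⁻¹ * τ * σ) • x - x = σ⁻¹ • (τ • (σ • x) - σ • x) := by
    rw [smul_sub, inv_smul_smul, mul_smul, mul_smul]
  rw [h2]
  exact (inv_dec h _).2 h1

/-! ### The forms -/

theorem pr_add (l : Fin 2 → ZMod 2) (t t' : T2) : pr l (t + t') = pr l t + pr l t' := by
  simp only [pr, Pi.add_apply, map_add, mul_add, Finset.sum_add_distrib]

theorem pr_zero (l : Fin 2 → ZMod 2) : pr l 0 = 0 := by
  simp [pr]

theorem pr_two (l : Fin 2 → ZMod 2) (t : T2) : pr l ((2 : ℤ_[2]) • t) = 0 := by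
  simp only [pr, Pi.smul_apply, smul_eq_mul, map_mul]
  have h2 : PadicInt.toZMod (p := 2) 2 = 0 := by
    have : (2 : ℤ_[2]) = ((2 : ℕ) : ℤ_[2]) := by norm_num
    rw [this, map_natCast]
    decide
  simp [h2]

theorem two_dvd_iff (z : ℤ_[2]) : (2 : ℤ_[2]) ∣ z ↔ PadicInt.toZMod (p := 2) z = 0 := by
  rw [← RingHom.mem_ker, PadicInt.ker_toZMod, PadicInt.maximalIdeal_eq_span_p,
    Ideal.mem_span_singleton]
  norm_num

/-- the sum of the three forms is zero -/
theorem sum_forms : ∀ L : Fin 3 → Fin 2 → ZMod 2, (∀ j, L j ≠ 0) → Function.Injective L →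
    ∀ k, L 0 k + L 1 k + L 2 k = 0 := by
  decide +revert

theorem pr_sum {L : Fin 3 → Fin 2 → ZMod 2} (h1 : ∀ j, L j ≠ 0) (h2 : Function.Injective L)
    (t : T2) : pr (L 0) t + pr (L 1) t + pr (L 2) t = 0 := by
  have h := sum_forms L h1 h2
  simp only [pr, ← Finset.sum_add_distrib, ← add_mul, h, zero_mul, Finset.sum_const_zero]

/-- every nonzero form is one of the three -/
theorem form_eq : ∀ L : Fin 3 → Fin 2 → ZMod 2, (∀ j, L j ≠ 0) → Function.Injective L →
    ∀ g : Fin 2 → ZMod 2, g ≠ 0 → ∃ n, g = L n := by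
  decide +revert

/-- a lattice vector with given reduction -/
theorem lift_vec (g : Fin 2 → ZMod 2) : ∃ t : T2, ∀ k, PadicInt.toZMod (p := 2) (t k) = g k := by
  refine ⟨fun k => ((g k).val : ℤ_[2]), fun k => ?_⟩
  rw [map_natCast, ZMod.natCast_zmod_val]

/-- a vector killed by one form only -/
theorem forms_vec : ∀ L : Fin 3 → Fin 2 → ZMod 2, (∀ j, L j ≠ 0) → Function.Injective L →
    ∀ i : Fin 3, ∃ g : Fin 2 → ZMod 2, g ≠ 0 ∧ ∀ j, (∑ k, L j k * g k = 0 ↔ j = i) := by
  decide +revert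

theorem exists_vec {L : Fin 3 → Fin 2 → ZMod 2} (h1 : ∀ j, L j ≠ 0) (h2 : Function.Injective L)
    (i : Fin 3) : ∃ t : T2, (∃ k, ¬ (2 : ℤ_[2]) ∣ t k) ∧ ∀ j, (pr (L j) t = 0 ↔ j = i) := by
  obtain ⟨g, hg, hg2⟩ := forms_vec L h1 h2 i
  obtain ⟨t, ht⟩ := lift_vec g
  refine ⟨t, ?_, fun j => ?_⟩
  · by_contra hcon
    push Not at hcon
    apply hg
    funext k
    rw [← ht k]
    exact (two_dvd_iff _).1 (hcon k)
  · rw [← hg2 j]
    simp only [pr, ht]

/-- `-1` is not a square in `ℚ_2` -/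
theorem neg_one_not_sq : ¬ IsSquare (-1 : ℚ_[2]) := by
  rintro ⟨r, hr⟩
  have hn : ‖r‖ = 1 := by
    have h1 : ‖r‖ * ‖r‖ = 1 := by rw [← norm_mul, ← hr, norm_neg, norm_one]
    nlinarith [norm_nonneg r]
  let r' : ℤ_[2] := ⟨r, hn.le⟩
  have h2 : (-1 : ℤ_[2]) = r' * r' := by
    apply Subtype.ext
    push_cast
    exact hr
  have h3 := congrArg (PadicInt.toZModPow (p := 2) 2) h2
  rw [map_neg, map_one, map_mul] at h3
  generalize PadicInt.toZModPow (p := 2) 2 r' = z at h3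
  revert h3
  revert z
  decide

/-- square roots are moved by a sign -/
theorem root_pm {z y : QB} {n : ℤ} (hy : y ^ 2 = ((n : ℤ) : QB)) (σ : GQ) : σ y = y ∨ σ y = -y := by
  have h1 : (σ y) ^ 2 = y ^ 2 := by
    rw [← map_pow, hy, map_intCast]
  exact sq_eq_sq_iff_eq_or_eq_neg.1 h1

end Pool.Agent.Q206.HD
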