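import Pool.Agent.Q274.HD.Stm2
import Pool.Agent.Q154.BKC.EMB

/-!
# Project HD of helper274, job EMB4: embeddings and decomposition groups over `ℚ`
-/

set_option autoImplicit false

namespace Pool.Agent.Q206.HD

open NumberField
open Pool.Agent.Q274.BKC (GK OB Dec Ine)
open Pool.Agent.Q274.HD
open Pool.Agent.Q154.BKC (QI mem_QI l_mem QI_prime QI_max exists_lift exists_move norm_aut)

theorem embQ_of {l : ℕ} [Fact l.Prime] (ι : QB →+* PadicAlgCl l) : EmbQ l (QI (K := ℚ) ι) ι where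
  mem := fun z => mem_QI ι z
  res := by
    intro τ
    obtain ⟨σ', hσ'⟩ := exists_lift (K := ℚ) ι (τ : PadicAlgCl l →+* PadicAlgCl l) (by
      intro x
      have h2 : ∀ φ : ℚ →+* PadicAlgCl l, (τ : PadicAlgCl l →+* PadicAlgCl l) (φ x) = φ x := by
        intro φ
        rw [eq_ratCast φ x]
        exact map_ratCast _ x
      exact h2 (ι.comp (algebraMap ℚ _)))
    refine ⟨σ', ?_, fun x => (hσ' x).symm⟩
    intro x
    rw [mem_QI, mem_QI]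
    have h5 : ι ((σ' • x : OB ℚ) : QB) = τ (ι (x : QB)) := hσ' (x : QB)
    rw [h5, norm_aut]

theorem exists_emb (l : ℕ) [Fact l.Prime] (Q : Ideal ZB) (hQ : Q.IsMaximal) (hl : (l : ZB) ∈ Q) :
    ∃ ι : QB →+* PadicAlgCl l, EmbQ l Q ι := by
  let ι₀ : QB →ₐ[ℚ] PadicAlgCl l := IsAlgClosed.lift
  obtain ⟨g, hg⟩ := exists_move (K := ℚ) (l := l) (QI (ι₀ : QB →+* PadicAlgCl l)) Q (QI_prime _)
    hQ.isPrime (l_mem _) hl
  have h3 : QI (K := ℚ) ((ι₀ : QB →+* PadicAlgCl l).comp g) = Q := by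
    ext z
    have hz : IsIntegral ℤ (g (z : QB)) :=
      map_isIntegral_int g (RingOfIntegers.isIntegral_coe z)
    obtain ⟨z', hz'⟩ : ∃ z' : OB ℚ, (z' : QB) = g (z : QB) := ⟨⟨_, hz⟩, rfl⟩
    rw [hg z z' hz', mem_QI, mem_QI, hz']
    rfl
  have h4 := embQ_of ((ι₀ : QB →+* PadicAlgCl l).comp g)
  rw [h3] at h4
  exact ⟨_, h4⟩

theorem sq_of {l : ℕ} [Fact l.Prime] {Q : Ideal ZB} {ι : QB →+* PadicAlgCl l} (h : EmbQ l Q ι)
    (z : ℤ) (hz : ∀ y : QB, y ^ 2 = ((z : ℤ) : QB) → ∀ σ ∈ Dec Q, σ y = y) :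
    IsSquare ((z : ℤ) : ℚ_[l]) := by
  obtain ⟨y, hy⟩ := IsAlgClosed.exists_pow_nat_eq ((z : ℤ) : QB) (n := 2) (by norm_num)
  have hfix : ι y ∈ (⊥ : IntermediateField ℚ_[l] (PadicAlgCl l)) := by
    rw [InfiniteGalois.mem_bot_iff_fixed]
    intro τ
    obtain ⟨σ, hσ, h2⟩ := h.res τ
    rw [h2 y, hz y hy σ hσ]
  obtain ⟨a, ha⟩ := IntermediateField.mem_bot.1 hfix
  refine ⟨a, ?_⟩
  apply (algebraMap ℚ_[l] (PadicAlgCl l)).injective
  rw [map_mul, ha, ← map_mul, ← pow_two, hy]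
  simp

/-- HD-4 (EMB). -/
theorem t_EMB4 : S_EMB4 := by
  intro l _ Q hQ hl
  obtain ⟨ι, hι⟩ := exists_emb l Q hQ hl
  exact ⟨⟨ι, hι⟩, fun z hz => sq_of hι z hz⟩

/-- there is a maximal ideal above `l` -/
theorem exists_above (l : ℕ) [Fact l.Prime] : ∃ Q : Ideal ZB, Q.IsMaximal ∧ (l : ZB) ∈ Q := by
  let ι₀ : QB →ₐ[ℚ] PadicAlgCl l := IsAlgClosed.lift
  exact ⟨QI (ι₀ : QB →+* PadicAlgCl l), QI_max _, l_mem _⟩

end Pool.Agent.Q206.HD
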