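import Pool.Agent.Q206.HD.Bas

/-!
# Project HD of helper274, job FRB: from the inertia group to the decomposition group
-/

set_option autoImplicit false
set_option linter.unusedVariables false

namespace Pool.Agent.Q206.HD

open NumberField
open Pool.Agent.Q274.BKC (GK OB Dec Ine)
open Pool.Agent.Q274.HD
open scoped Matrix

/-- the stabilizer of a vector -/
noncomputable def stab (ρ : Rep) (v : V2) : Subgroup GQ where
  carrier := {σ | act ρ σ v = v}
  one_mem' := act_one ρ v
  mul_mem' := by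
    intro σ τ h h'
    show act ρ (σ * τ) v = v
    rw [act_mul, show act ρ τ v = v from h', show act ρ σ v = v from h]
  inv_mem' := by
    intro σ h
    show act ρ σ⁻¹ v = v
    have h1 : act ρ σ v = v := h
    conv_lhs => rw [← h1]
    rw [← act_mul, inv_mul_cancel, act_one]

/-- the zero set of a cocycle -/
noncomputable def zset (ρ : Rep) (e : GQ → V2) (he : ∀ σ τ, e (σ * τ) = e σ + act ρ σ (e τ)) :
    Subgroup GQ where
  carrier := {σ | e σ = 0}
  one_mem' := by
    have h := he 1 1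
    rw [mul_one, act_one] at h
    exact left_eq_add.1 h
  mul_mem' := by
    intro σ τ h h'
    show e (σ * τ) = 0
    rw [he, show e σ = 0 from h, show e τ = 0 from h', act_zero, add_zero]
  inv_mem' := by
    intro σ h
    show e σ⁻¹ = 0
    have h1 : e 1 = 0 := by
      have h := he 1 1
      rw [mul_one, act_one] at h
      exact left_eq_add.1 h
    have h2 := he σ⁻¹ σ
    rw [inv_mul_cancel, h1, show e σ = 0 from h, act_zero, add_zero] at h2
    exact h2.symm

/-- the invariants of the inertia group -/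
noncomputable def inv (ρ : Rep) (Q : Ideal ZB) : Submodule ℚ_[2] V2 where
  carrier := {v | ∀ τ ∈ Ine Q, act ρ τ v = v}
  zero_mem' := fun τ _ => act_zero ρ τ
  add_mem' := by
    intro v v' h h' τ hτ
    rw [act_add, h τ hτ, h' τ hτ]
  smul_mem' := by
    intro k v h τ hτ
    rw [act_smul, h τ hτ]

theorem inv_act {ρ : Rep} {Q : Ideal ZB} {φ : GQ} (hφ : φ ∈ Dec Q) {v : V2} (hv : v ∈ inv ρ Q) :
    act ρ φ v ∈ inv ρ Q := by
  intro τ hτ
  have h1 := hv _ (conj_ine hφ hτ)
  have h2 : τ * φ = φ * (φ⁻¹ * τ * φ) := by group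
  rw [← act_mul, h2, act_mul, h1]

/-- HD-6 (FRB). -/
theorem t_FRB : S_FRB := by
  intro hF ρ hρ l hl Q hQ hlQ hinv c hc hcoc hine
  obtain ⟨y0, hy0⟩ := hine
  obtain ⟨φ, hφ, -, hgen⟩ := hF l hl Q hQ hlQ
  -- the modified cocycle
  let d : GQ → V2 := fun σ => c σ - (act ρ σ y0 - y0)
  have hd : ∀ σ τ, d (σ * τ) = d σ + act ρ σ (d τ) := by
    intro σ τ
    show c (σ * τ) - (act ρ (σ * τ) y0 - y0) = c σ - (act ρ σ y0 - y0) +
      act ρ σ (c τ - (act ρ τ y0 - y0))
    rw [hcoc, act_mul, act_sub, act_sub]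
    abel
  have hdI : ∀ τ ∈ Ine Q, d τ = 0 := by
    intro τ hτ
    show c τ - (act ρ τ y0 - y0) = 0
    rw [hy0 τ hτ, sub_self]
  have hdφ : d φ ∈ inv ρ Q := by
    intro τ hτ
    have h1 := hd τ φ
    rw [hdI τ hτ, zero_add] at h1
    have h2 : τ * φ = φ * (φ⁻¹ * τ * φ) := by group
    rw [h2, hd, hdI _ (conj_ine hφ hτ), act_zero, add_zero] at h1
    exact h1.symm
  -- the map `φ - 1` on the invariants
  let M : inv ρ Q →ₗ[ℚ_[2]] inv ρ Q :=
    (((actL ρ φ).comp (inv ρ Q).subtype).codRestrict (inv ρ Q) (fun v => inv_act hφ v.2)) -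
      LinearMap.id
  have hM : ∀ v : inv ρ Q, ((M v : inv ρ Q) : V2) = act ρ φ v - v := fun v => rfl
  have hMinj : Function.Injective M := by
    rw [injective_iff_map_eq_zero]
    intro v hv
    have h1 : act ρ φ (v : V2) = v := by
      have h2 := congrArg (Subtype.val) hv
      rw [hM] at h2
      exact sub_eq_zero.1 h2
    have h3 : (v : V2) = 0 := by
      apply hinv
      intro σ hσ
      refine hgen (stab ρ v) ?_ h1 (fun τ hτ => v.2 τ hτ) σ hσ
      exact isClosed_eq (act_cont hρ v) continuous_const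
    exact Subtype.ext h3
  have hMsurj : Function.Surjective M := LinearMap.injective_iff_surjective.1 hMinj
  obtain ⟨y1, hy1⟩ := hMsurj ⟨d φ, hdφ⟩
  have hy1' : act ρ φ (y1 : V2) - y1 = d φ := by
    rw [← hM, hy1]
  -- the second modification
  let e : GQ → V2 := fun σ => d σ - (act ρ σ (y1 : V2) - y1)
  have he : ∀ σ τ, e (σ * τ) = e σ + act ρ σ (e τ) := by
    intro σ τ
    show d (σ * τ) - (act ρ (σ * τ) (y1 : V2) - y1) = d σ - (act ρ σ (y1 : V2) - y1) +
      act ρ σ (d τ - (act ρ τ (y1 : V2) - y1))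
    rw [hd, act_mul, act_sub ρ σ (d τ) (act ρ τ (y1 : V2) - y1),
      act_sub ρ σ (act ρ τ (y1 : V2)) y1]
    abel
  have hecont : Continuous e :=
    (hc.sub ((act_cont hρ y0).sub continuous_const)).sub ((act_cont hρ y1).sub continuous_const)
  refine ⟨y0 + y1, fun σ hσ => ?_⟩
  have h0 : e σ = 0 := by
    refine hgen (zset ρ e he) ?_ ?_ ?_ σ hσ
    · exact isClosed_eq hecont continuous_const
    · show d φ - (act ρ φ (y1 : V2) - y1) = 0
      rw [hy1', sub_self]
    · intro τ hτ
      show d τ - (act ρ τ (y1 : V2) - y1) = 0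
      rw [hdI τ hτ, y1.2 τ hτ, sub_self, sub_self]
  have h1 : c σ - (act ρ σ y0 - y0) - (act ρ σ (y1 : V2) - y1) = 0 := h0
  rw [act_add]
  have h2 : c σ = (act ρ σ y0 - y0) + (act ρ σ (y1 : V2) - y1) := by
    rw [sub_sub, sub_eq_zero] at h1
    exact h1
  rw [h2]
  abel

end Pool.Agent.Q206.HD
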