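import Pool.Agent.Q206.HD.Ram

/-!
# Project HD of helper274, job GOOD: the odd primes of good reduction
-/

set_option autoImplicit false
set_option linter.unusedVariables false

namespace Pool.Agent.Q206.HD

open NumberField
open Pool.Agent.Q274.BKC (GK OB Dec Ine)
open Pool.Agent.TH344.JG (LocJ SelJ)
open Pool.Agent.Q274.HD
open scoped Matrix

/-- HD-10 (GOOD). -/
theorem t_GOOD : S_GOOD := by
  intro hG b ρ w f L c x hLoc l _ hl2 hdd
  have hl : l.Prime := Fact.out
  obtain ⟨Q, hQ, hlQ⟩ := exists_above l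
  have h2Q := two_not_mem hl hl2 hQ hlQ
  -- the cocycle vanishes on the inertia group
  have hddQ : ((2 * dd b : ℤ) : ZB) ∉ Q := by
    apply not_mem_of hl hQ hlQ
    intro h
    rcases (Nat.prime_iff_prime_int.1 hl).dvd_or_dvd h with h | h
    · have h' : l ∣ 2 := by exact_mod_cast h
      exact hl2 ((Nat.prime_dvd_prime_iff_eq hl Nat.prime_two).1 h')
    · exact hdd h
  have hρ := hLoc.def_.unr Q hQ hddQ
  obtain ⟨y, hy⟩ := hLoc.sel.ine Q hQ h2Q
  have hc0 : ∀ σ ∈ Ine Q, c σ = 0 := by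
    intro σ hσ
    apply toV_inj
    have h1 : toV (c σ) = act ρ σ y - y := hy σ hσ
    have h2 : act ρ σ y = y := by
      have h3 := act_one ρ y
      unfold act at h3 ⊢
      rw [map_one] at h3
      rw [hρ σ hσ]
      exact h3
    rw [h1, h2, sub_self, toV_zero]
  -- the classes are prime to `l`
  have hx : ∀ j, ¬ (l : ℤ) ∣ x j := by
    intro j hj
    obtain ⟨σ, hσ, hσ2⟩ := ram_int hQ hlQ (hLoc.sqf j).ne_zero (by
      rw [padicVal_one (hLoc.sqf j) hj]
      exact odd_one)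
    obtain ⟨y, hy⟩ := IsAlgClosed.exists_pow_nat_eq ((x j : ℤ) : QB) (n := 2) (by norm_num)
    have h1 : σ y = y := (hLoc.cls.2 j σ (Set.mem_univ _) y hy).2 (by rw [hc0 σ hσ, pr_zero])
    have h2 := hσ2 y hy
    rw [h1] at h2
    have h3 : y = 0 := self_eq_neg.1 h2
    rw [h3] at hy
    have h4 : ((x j : ℤ) : QB) = 0 := by rw [← hy]; ring
    exact (hLoc.sqf j).ne_zero (by exact_mod_cast h4)
  refine hG l hl2 b x hdd hx ?_
  obtain ⟨r, hr⟩ := prod_sq hLoc.dat.ne hLoc.dat.inj hLoc.cls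
  refine ⟨(r : ℚ_[l]), ?_⟩
  have h1 := congrArg (fun q : ℚ => (q : ℚ_[l])) hr
  push_cast at h1 ⊢
  exact h1

end Pool.Agent.Q206.HD
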