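import Pool.Agent.Q206.HD.EMB4
import Pool.Agent.Q206.HD.Bas
import Pool.Agent.Q95.BKC.RAM

/-!
# Project HD of helper274: elements of the inertia group over `ℚ`
-/

set_option autoImplicit false
set_option linter.unusedVariables false

namespace Pool.Agent.Q206.HD

open NumberField IsDedekindDomain
open Pool.Agent.Q274.BKC (GK OB Dec Ine)
open Pool.Agent.Q274.HD
open scoped Matrix

/-- integers prime to `l` are not in the primes above `l` -/
theorem not_mem_of {l : ℕ} (hl : l.Prime) {Q : Ideal ZB} (hQ : Q.IsMaximal) (hlQ : (l : ZB) ∈ Q)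
    {n : ℤ} (hn : ¬ (l : ℤ) ∣ n) : ((n : ℤ) : ZB) ∉ Q := by
  intro h
  have hp : Prime (l : ℤ) := Nat.prime_iff_prime_int.1 hl
  obtain ⟨a, b, hab⟩ := (hp.irreducible.coprime_iff_not_dvd (n := n)).2 hn
  apply hQ.ne_top
  rw [Ideal.eq_top_iff_one]
  have h1 : (1 : ZB) = (a : ZB) * (l : ZB) + (b : ZB) * ((n : ℤ) : ZB) := by
    have := congrArg (fun z : ℤ => (z : ZB)) hab
    push_cast at this
    exact this.symm
  rw [h1]
  exact Q.add_mem (Q.mul_mem_left _ hlQ) (Q.mul_mem_left _ h)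

theorem two_not_mem {l : ℕ} (hl : l.Prime) (h2 : l ≠ 2) {Q : Ideal ZB} (hQ : Q.IsMaximal)
    (hlQ : (l : ZB) ∈ Q) : (2 : ZB) ∉ Q := by
  have h := not_mem_of hl hQ hlQ (n := 2) (by
    intro h
    have h' : l ∣ 2 := by exact_mod_cast h
    exact h2 ((Nat.prime_dvd_prime_iff_eq hl Nat.prime_two).1 h'))
  simpa using h

/-- the prime of `𝓞 ℚ` below `Q` -/
theorem below_eq {l : ℕ} (hl : l.Prime) {Q : Ideal ZB} (hQ : Q.IsMaximal) (hlQ : (l : ZB) ∈ Q) :
    Q.comap (algebraMap (𝓞 ℚ) ZB) = Ideal.span {(l : 𝓞 ℚ)} := by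
  ext x
  rw [Ideal.mem_comap, Ideal.mem_span_singleton]
  obtain ⟨n, rfl⟩ := Rat.ringOfIntegersEquiv.symm.surjective x
  have hn : Rat.ringOfIntegersEquiv.symm n = ((n : ℤ) : 𝓞 ℚ) := by
    rw [← map_intCast (Rat.ringOfIntegersEquiv.symm) n]
    simp
  rw [hn, map_intCast]
  constructor
  · intro h
    have h1 : (l : ℤ) ∣ n := by
      by_contra hcon
      exact not_mem_of hl hQ hlQ hcon h
    obtain ⟨k, hk⟩ := h1
    exact ⟨(k : 𝓞 ℚ), by rw [hk]; push_cast; ring⟩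
  · rintro ⟨k, hk⟩
    have h1 := congrArg (algebraMap (𝓞 ℚ) ZB) hk
    rw [map_intCast, map_mul, map_natCast] at h1
    rw [h1]
    exact Q.mul_mem_right _ hlQ

/-- **the inertia group moves the square roots of integers of odd valuation.** -/
theorem ram_int {l : ℕ} [hl : Fact l.Prime] {Q : Ideal ZB} (hQ : Q.IsMaximal) (hlQ : (l : ZB) ∈ Q)
    {z : ℤ} (hz : z ≠ 0) (hodd : Odd (padicValInt l z)) :
    ∃ σ ∈ Ine Q, ∀ y : QB, y ^ 2 = ((z : ℤ) : QB) → σ y = -y := by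
  have hl0 : (l : 𝓞 ℚ) ≠ 0 := by exact_mod_cast hl.out.ne_zero
  let v : HeightOneSpectrum (𝓞 ℚ) := ⟨Q.comap (algebraMap (𝓞 ℚ) ZB), by
    have := hQ.isPrime
    exact Ideal.IsPrime.comap _, by
    intro h0
    have h1 : (l : 𝓞 ℚ) ∈ Q.comap (algebraMap (𝓞 ℚ) ZB) := by
      rw [below_eq hl.out hQ hlQ]
      exact Ideal.mem_span_singleton_self _
    rw [h0] at h1
    exact hl0 h1⟩
  have hv : v.asIdeal = Ideal.span {(l : 𝓞 ℚ)} := below_eq hl.out hQ hlQ
  have hvl : v.valuation ℚ ((l : ℕ) : ℚ) = WithZero.exp (-1 : ℤ) := by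
    have h1 := v.valuation_of_algebraMap (K := ℚ) (l : 𝓞 ℚ)
    rw [v.intValuation_singleton hl0 hv] at h1
    rw [← h1]
    simp
  -- decomposition of `z`
  obtain ⟨u, hu⟩ := padicValInt_dvd (p := l) z
  have hlu : ¬ (l : ℤ) ∣ u := by
    rintro ⟨k, hk⟩
    have h1 : (l : ℤ) ^ (padicValInt l z + 1) ∣ z := ⟨k, by rw [pow_succ, mul_assoc, ← hk]; exact hu⟩
    rw [padicValInt_dvd_iff] at h1
    rcases h1 with h1 | h1
    · exact hz h1
    · omega
  have hvu : v.valuation ℚ ((u : ℤ) : ℚ) = 1 := by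
    have h1 := v.valuation_of_algebraMap (K := ℚ) ((u : ℤ) : 𝓞 ℚ)
    have h2 : v.intValuation ((u : ℤ) : 𝓞 ℚ) = 1 := by
      rw [HeightOneSpectrum.intValuation_eq_one_iff]
      intro h3
      have h4 : algebraMap (𝓞 ℚ) ZB ((u : ℤ) : 𝓞 ℚ) ∈ Q := h3
      rw [map_intCast] at h4
      exact not_mem_of hl.out hQ hlQ hlu h4
    rw [h2] at h1
    rw [← h1]
    simp
  have hvz : v.valuation ℚ ((z : ℤ) : ℚ) = WithZero.exp (-(padicValInt l z : ℤ)) := by
    have h1 : ((z : ℤ) : ℚ) = ((l : ℕ) : ℚ) ^ (padicValInt l z) * ((u : ℤ) : ℚ) := by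
      conv_lhs => rw [hu]
      push_cast
      rfl
    rw [h1, map_mul, map_pow, hvl, hvu, mul_one, ← WithZero.exp_nsmul]
    congr 1
    simp
  have hx : ((z : ℤ) : ℚ) ≠ 0 := by exact_mod_cast hz
  obtain ⟨σ, hσ, hσ2⟩ := Pool.Agent.Q95.BKC.t_RAM ℚ ((z : ℤ) : ℚ) v Q hx (by
    intro a ha h1
    rw [map_mul, map_pow, hvz] at h1
    have ha' : v.valuation ℚ a ≠ 0 := (Valuation.ne_zero_iff _).2 ha
    have h2 := congrArg WithZero.log h1
    rw [WithZero.log_mul WithZero.exp_ne_zero (pow_ne_zero _ ha'), WithZero.log_exp,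
      WithZero.log_pow, WithZero.log_one, nsmul_eq_mul] at h2
    obtain ⟨k, hk⟩ := hodd
    rw [hk] at h2
    push_cast at h2
    omega) hQ rfl
  refine ⟨σ, hσ, fun y hy => hσ2 y ?_⟩
  rw [hy]
  simp

/-- primes which divide a squarefree integer -/
theorem padicVal_one {l : ℕ} [hl : Fact l.Prime] {z : ℤ} (hz : Squarefree z) (h : (l : ℤ) ∣ z) :
    padicValInt l z = 1 := by
  have h1 : 1 ≤ padicValInt l z := by
    have := (padicValInt_dvd_iff (p := l) 1 z).1 (by rw [pow_one]; exact h)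
    rcases this with h | h
    · exact absurd h hz.ne_zero
    · exact h
  have h2 : ¬ 2 ≤ padicValInt l z := by
    intro h2
    have h3 := (padicValInt_dvd_iff (p := l) 2 z).2 (Or.inr h2)
    rw [pow_two] at h3
    have h4 := hz _ h3
    rw [Int.isUnit_iff] at h4
    have := hl.out.two_le
    omega
  omega

/-- the inertia group fixes the square roots of integers prime to `l` (`l` odd) -/
theorem ine_fix {l : ℕ} (hl : l.Prime) (h2 : l ≠ 2) {Q : Ideal ZB} (hQ : Q.IsMaximal)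
    (hlQ : (l : ZB) ∈ Q) {z : ℤ} (hz : ¬ (l : ℤ) ∣ z) {σ : GQ} (hσ : σ ∈ Ine Q) {y : QB}
    (hy : y ^ 2 = ((z : ℤ) : QB)) : σ y = y := by
  rcases root_pm (z := 0) hy σ with h | h
  · exact h
  · exfalso
    have hint : IsIntegral ℤ y := by
      refine IsIntegral.of_pow (n := 2) (by norm_num) ?_
      rw [hy]
      have := isIntegral_algebraMap (R := ℤ) (A := QB) (x := z)
      simpa using this
    obtain ⟨Y, hY⟩ : ∃ Y : ZB, (Y : QB) = y := ⟨⟨y, hint⟩, rfl⟩
    have h3 := hσ Y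
    have h4 : σ • Y - Y = -(2 * Y) := by
      apply RingOfIntegers.ext
      have h5 : ((σ • Y : ZB) : QB) = σ (Y : QB) := rfl
      have e1 : ((σ • Y - Y : ZB) : QB) = ((σ • Y : ZB) : QB) - (Y : QB) :=
        map_sub (algebraMap ZB QB) _ _
      have e2 : ((-(2 * Y) : ZB) : QB) = -((2 * Y : ZB) : QB) := map_neg (algebraMap ZB QB) _
      have e3 : ((2 * Y : ZB) : QB) = ((2 : ZB) : QB) * (Y : QB) := map_mul (algebraMap ZB QB) _ _
      have e4 : ((2 : ZB) : QB) = 2 := map_ofNat (algebraMap ZB QB) 2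
      rw [e1, e2, e3, e4, h5, hY, h]
      ring
    rw [h4, Q.neg_mem_iff] at h3
    have hp := hQ.isPrime
    rcases hp.mem_or_mem h3 with h6 | h6
    · exact two_not_mem hl h2 hQ hlQ h6
    · have h7 : Y * Y ∈ Q := Q.mul_mem_left _ h6
      have h8 : Y * Y = ((z : ℤ) : ZB) := by
        apply RingOfIntegers.ext
        have e1 : ((Y * Y : ZB) : QB) = (Y : QB) * (Y : QB) := map_mul (algebraMap ZB QB) _ _
        have e2 : (((z : ℤ) : ZB) : QB) = ((z : ℤ) : QB) := map_intCast (algebraMap ZB QB) z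
        rw [e1, e2, hY, ← pow_two, hy]
      rw [h8] at h7
      exact not_mem_of hl hQ hlQ hz h7

/-- the product of the classes is a square -/
theorem prod_sq {L : Fin 3 → Fin 2 → ZMod 2} (h1 : ∀ j, L j ≠ 0) (h2 : Function.Injective L)
    {c : GQ → T2} {x : Fin 3 → ℤ} (hx : Cls L c x Set.univ) :
    IsSquare ((x 0 * x 1 * x 2 : ℤ) : ℚ) := by
  have hr : ∀ j, ∃ y : QB, y ^ 2 = ((x j : ℤ) : QB) := fun j =>
    IsAlgClosed.exists_pow_nat_eq ((x j : ℤ) : QB) (n := 2) (by norm_num)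
  choose y hy using hr
  have hfix : ∀ σ : GQ, σ (y 0 * y 1 * y 2) = y 0 * y 1 * y 2 := by
    intro σ
    have hs := pr_sum h1 h2 (c σ)
    have k : ∀ j, σ (y j) = y j ↔ pr (L j) (c σ) = 0 := fun j => hx.2 j σ (Set.mem_univ _) (y j) (hy j)
    have r : ∀ j, ¬ pr (L j) (c σ) = 0 → σ (y j) = -y j := fun j h =>
      (root_pm (z := 0) (hy j) σ).resolve_left fun h' => h ((k j).1 h')
    have h01 : ∀ a : ZMod 2, a ≠ 0 → a = 1 := by decide
    rw [map_mul, map_mul]
    by_cases p0 : pr (L 0) (c σ) = 0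
    · by_cases p1 : pr (L 1) (c σ) = 0
      · have p2 : pr (L 2) (c σ) = 0 := by rw [p0, p1] at hs; simpa using hs
        rw [(k 0).2 p0, (k 1).2 p1, (k 2).2 p2]
      · have p2 : ¬ pr (L 2) (c σ) = 0 := by
          intro h
          rw [p0, h] at hs
          exact p1 (by simpa using hs)
        rw [(k 0).2 p0, r 1 p1, r 2 p2]
        ring
    · by_cases p1 : pr (L 1) (c σ) = 0
      · have p2 : ¬ pr (L 2) (c σ) = 0 := by
          intro h
          rw [p1, h] at hs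
          exact p0 (by simpa using hs)
        rw [r 0 p0, (k 1).2 p1, r 2 p2]
        ring
      · have p2 : pr (L 2) (c σ) = 0 := by
          rw [h01 _ p0, h01 _ p1] at hs
          have h11 : (1 : ZMod 2) + 1 = 0 := by decide
          rw [h11, zero_add] at hs
          exact hs
        rw [r 0 p0, r 1 p1, (k 2).2 p2]
        ring
  obtain ⟨r, hr⟩ := (InfiniteGalois.mem_range_algebraMap_iff_fixed (k := ℚ) (K := QB) _).2 hfix
  refine ⟨r, ?_⟩
  apply (algebraMap ℚ QB).injective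
  rw [map_mul, hr]
  have h3 : (y 0 * y 1 * y 2) * (y 0 * y 1 * y 2) = y 0 ^ 2 * y 1 ^ 2 * y 2 ^ 2 := by ring
  rw [h3, hy, hy, hy]
  simp

end Pool.Agent.Q206.HD
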