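import Pool.Agent.Q206.HD.Bas

/-!
# Project HD of helper274, job SLX: integral Selmer cocycles have classes in the 2-Selmer group
-/

set_option autoImplicit false

namespace Pool.Agent.Q206.HD

open NumberField
open Pool.Agent.Q274.BKC (GK OB Dec Ine)
open Pool.Agent.Q274.HD
open scoped Matrix

theorem lc_toZMod {X : Type*} [TopologicalSpace X] {g : X → ℤ_[2]} (hg : Continuous g) :
    IsLocallyConstant fun x => PadicInt.toZMod (p := 2) (g x) := by
  rw [IsLocallyConstant.iff_exists_open]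
  intro x
  refine ⟨g ⁻¹' Metric.ball (g x) 1, Metric.isOpen_ball.preimage hg, Metric.mem_ball_self one_pos,
    fun y hy => ?_⟩
  have h1 : ‖g y - g x‖ < 1 := by
    rw [← dist_eq_norm]
    exact hy
  have h2 := (two_dvd_iff _).1 (by
    have := (PadicInt.norm_lt_one_iff_dvd _).1 h1
    exact_mod_cast this)
  rw [map_sub, sub_eq_zero] at h2
  exact h2

/-- the linear forms of a continuous function are locally constant -/
theorem lc_pr (l : Fin 2 → ZMod 2) {c : GQ → T2} (hc : Continuous fun σ => toV (c σ)) :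
    IsLocallyConstant fun σ => pr l (c σ) := by
  have h1 : ∀ k, Continuous fun σ => c σ k := by
    intro k
    exact (PadicInt.isOpenEmbedding_coe (p := 2)).isInducing.continuous_iff.2
      ((continuous_apply k).comp hc)
  have h2 : ∀ k, IsLocallyConstant fun σ => l k * PadicInt.toZMod (p := 2) (c σ k) :=
    fun k => (lc_toZMod (h1 k)).comp fun z => l k * z
  have h3 : (fun σ => pr l (c σ)) = fun σ => l 0 * PadicInt.toZMod (p := 2) (c σ 0) +
      l 1 * PadicInt.toZMod (p := 2) (c σ 1) := by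
    funext σ
    simp only [pr, Fin.sum_univ_two]
  rw [h3]
  exact (h2 0).comp₂ (h2 1) fun z z' => z + z'

/-- integral Selmer cocycles are cocycles -/
theorem coc_int {ρ : Rep} {w : Ideal ZB} {f : T2} {c : GQ → T2} (hc : IsI ρ w f c) (σ τ : GQ) :
    c (σ * τ) = c σ + ρ σ *ᵥ c τ := by
  apply toV_inj
  rw [toV_add, toV_mulVec]
  exact hc.coc σ τ

/-- HD-22 (SLX). -/
theorem t_SLX : S_SLX := by
  intro hEMB hFRO hFRB hTC hQCH hREAL hGPT hGOOD hNPL hSPT hSPA hSPL hTPT hOBS hTWA hTWO b ρ w f L hb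
    h2 hodd hD hdat c hc
  have hχ : ∀ j, ∃ d : ℤ, Squarefree d ∧ ∀ (σ : GQ) (y : QB), y ^ 2 = ((d : ℤ) : QB) →
      (σ y = y ↔ pr (L j) (c σ) = 0) := by
    intro j
    refine hQCH (fun σ => pr (L j) (c σ)) (lc_pr (L j) hc.cont) fun σ τ => ?_
    obtain ⟨u, hu⟩ := hdat.two σ (c τ)
    show pr (L j) (c (σ * τ)) = _
    rw [coc_int hc, hu, pr_add, pr_add, pr_two, add_zero]
  choose x hx1 hx2 using hχ
  have hcls : Cls L c x Set.univ :=
    ⟨fun j => (hx1 j).ne_zero, fun j σ _ y hy => hx2 j σ y hy⟩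
  have hloc : Loc b ρ w f L c x := ⟨hb, hD, hdat, hc, hx1, hcls⟩
  refine ⟨x, ⟨hx1, hREAL hTC b ρ w f L c x hloc, fun p _ => ?_⟩, hcls⟩
  by_cases hp : p = 2
  · subst hp
    exact hTWO hEMB hTC hTPT hOBS hTWA b ρ w f L c x hloc h2
  rcases hodd p hp with h3 | h3
  · by_cases h4 : (p : ℤ) ∣ dd b
    · exact hSPL hEMB hFRO hFRB hTC hSPT hSPA b ρ w f L c x hloc p hp h4 h3
    · exact hGOOD hGPT b ρ w f L c x hloc p hp h4
  · exact hNPL hEMB hFRO hFRB hTC b ρ w f L c x hloc p hp h3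

end Pool.Agent.Q206.HD
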