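import Pool.Agent.Q274.HD.Stm2
import Pool.Agent.Q182.JQ.ELL
import Pool.Agent.Y723.PT.Lg

/-!
# Project HD of helper274, job SPT: local points at an odd prime of multiplicative reduction
-/

set_option autoImplicit false
set_option linter.unusedVariables false

namespace Pool.Agent.Q206.HD

open Pool.Agent.TH344.JG (LocJ SelJ)
open Pool.Agent.Q274.HD
open Pool.Agent.Y723.PT (LG locJ_iff isSquare_cancel)
open Q182.JQ.ELL (Pt pt_LocJ hens H3_padic Pt_tor)

section
variable {l : ℕ} [hl : Fact l.Prime]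

theorem norm_int_one {z : ℤ} (hz : ¬ (l : ℤ) ∣ z) : ‖((z : ℤ) : ℚ_[l])‖ = 1 := by
  have h1 := Padic.norm_int_le_one (p := l) z
  have h2 : ¬ ‖((z : ℤ) : ℚ_[l])‖ < 1 := by
    rw [Padic.norm_intCast_lt_one_iff]
    exact hz
  exact le_antisymm h1 (not_lt.1 h2)

theorem unit_int {z : ℤ} (hz : ¬ (l : ℤ) ∣ z) : IsUnit ((z : ℤ) : ℤ_[l]) := by
  rw [PadicInt.isUnit_iff, PadicInt.norm_def]
  have := norm_int_one (l := l) hz
  simpa using this

/-- squares in `ℚ_l` among the units -/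
theorem sq_iff (h2 : l ≠ 2) {z : ℤ} (hz : ¬ (l : ℤ) ∣ z) :
    IsSquare ((z : ℤ) : ℚ_[l]) ↔ IsSquare ((z : ℤ) : ZMod l) := by
  constructor
  · rintro ⟨r, hr⟩
    have hn : ‖r‖ = 1 := by
      have h1 : ‖r‖ * ‖r‖ = 1 := by rw [← norm_mul, ← hr, norm_int_one hz]
      nlinarith [norm_nonneg r]
    let r' : ℤ_[l] := ⟨r, hn.le⟩
    have h3 : ((z : ℤ) : ℤ_[l]) = r' * r' := by
      apply Subtype.ext
      push_cast
      exact hr
    have h4 := congrArg (PadicInt.toZMod (p := l)) h3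
    rw [map_intCast, map_mul] at h4
    exact ⟨_, h4⟩
  · rintro ⟨a, ha⟩
    obtain ⟨u, rfl⟩ := ZMod.intCast_surjective a
    have h3 : (l : ℤ) ∣ z - u * u := by
      rw [← ZMod.intCast_zmod_eq_zero_iff_dvd]
      push_cast
      rw [ha, sub_self]
    have hu : ¬ (l : ℤ) ∣ u := by
      intro h
      apply hz
      have h4 : (l : ℤ) ∣ u * u := h.mul_right u
      have := (dvd_sub_left h4).1 h3
      exact this
    obtain ⟨k, hk⟩ := h3
    obtain ⟨U, hU⟩ := unit_int (l := l) hu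
    have h4 : IsUnit ((4 : ℤ) : ℤ_[l]) := unit_int (by
      intro h
      have h5 : l ∣ 4 := by exact_mod_cast h
      have h6 : l ∣ 2 := by
        have : l ∣ 2 ^ 2 := by simpa using h5
        exact hl.out.dvd_of_dvd_pow this
      exact h2 ((Nat.prime_dvd_prime_iff_eq hl.out Nat.prime_two).1 h6))
    obtain ⟨F, hF⟩ := h4
    have h5 := hens l (((F⁻¹ : ℤ_[l]ˣ) : ℤ_[l]) * (k : ℤ_[l]) * ((U⁻¹ : ℤ_[l]ˣ) : ℤ_[l]) ^ 2)
    have h6 : ((z : ℤ) : ℤ_[l]) = ((u : ℤ) : ℤ_[l]) * ((u : ℤ) : ℤ_[l]) *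
        (1 + 4 * l * (((F⁻¹ : ℤ_[l]ˣ) : ℤ_[l]) * (k : ℤ_[l]) * ((U⁻¹ : ℤ_[l]ˣ) : ℤ_[l]) ^ 2)) := by
      have e1 : ((F⁻¹ : ℤ_[l]ˣ) : ℤ_[l]) * 4 = 1 := by
        have := F.inv_mul
        rw [hF] at this
        simpa using this
      have e2 : ((U⁻¹ : ℤ_[l]ˣ) : ℤ_[l]) * ((u : ℤ) : ℤ_[l]) = 1 := by
        have := U.inv_mul
        rw [hU] at this
        exact this
      have e3 : ((z : ℤ) : ℤ_[l]) = ((u : ℤ) : ℤ_[l]) * ((u : ℤ) : ℤ_[l]) + l * k := by
        have h7 : z = u * u + l * k := by linarith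
        rw [h7]
        push_cast
        ring
      generalize ((F⁻¹ : ℤ_[l]ˣ) : ℤ_[l]) = A at e1 ⊢
      generalize ((U⁻¹ : ℤ_[l]ˣ) : ℤ_[l]) = B at e2 ⊢
      rw [e3]
      have e4 : ((u : ℤ) : ℤ_[l]) * ((u : ℤ) : ℤ_[l]) * (1 + 4 * l * (A * k * B ^ 2)) =
          ((u : ℤ) : ℤ_[l]) * ((u : ℤ) : ℤ_[l]) +
            (A * 4) * ((B * ((u : ℤ) : ℤ_[l])) ^ 2) * (l * k) := by ring
      rw [e4, e1, e2]
      ring
    have h7 : IsSquare ((z : ℤ) : ℤ_[l]) := by
      rw [h6]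
      exact (IsSquare.mul_self _).mul h5
    obtain ⟨r, hr⟩ := h7
    refine ⟨(r : ℚ_[l]), ?_⟩
    have := congrArg (fun t : ℤ_[l] => (t : ℚ_[l])) hr
    push_cast at this
    exact this

theorem zmod_ne {z : ℤ} (hz : ¬ (l : ℤ) ∣ z) : ((z : ℤ) : ZMod l) ≠ 0 := by
  rw [Ne, ZMod.intCast_zmod_eq_zero_iff_dvd]
  exact hz

/-- products of nonsquares -/
theorem sq_mul_ns {a b : ZMod l} (ha : ¬ IsSquare a) (hb : ¬ IsSquare b) : IsSquare (a * b) := by
  have ha0 : a ≠ 0 := fun h => ha (by rw [h]; exact IsSquare.zero)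
  have hb0 : b ≠ 0 := fun h => hb (by rw [h]; exact IsSquare.zero)
  rw [← quadraticChar_one_iff_isSquare (mul_ne_zero ha0 hb0), map_mul,
    quadraticChar_neg_one_iff_not_isSquare.2 ha, quadraticChar_neg_one_iff_not_isSquare.2 hb]
  norm_num

/-- the point -/
theorem exists_X (h2 : l ≠ 2) {s : ℤ} (hs : ¬ (l : ℤ) ∣ s) : ∃ X : ℤ, ¬ (l : ℤ) ∣ X ∧
    ¬ IsSquare ((X : ℤ) : ZMod l) ∧ X + s ≠ 0 ∧ IsSquare ((X + s : ℤ) : ℚ_[l]) := by
  have hs' : ¬ (l : ℤ) ∣ -s := by rwa [dvd_neg]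
  by_cases h : IsSquare ((-s : ℤ) : ZMod l)
  · -- the least nonsquare
    have hex : ∃ n : ℕ, 0 < n ∧ n < l ∧ ¬ IsSquare ((n : ℕ) : ZMod l) := by
      obtain ⟨a, ha⟩ := FiniteField.exists_nonsquare (F := ZMod l) (by
        rw [ZMod.ringChar_zmod_n]; exact h2)
      refine ⟨a.val, ?_, ZMod.val_lt a, ?_⟩
      · rw [Nat.pos_iff_ne_zero]
        intro h0
        rw [ZMod.val_eq_zero] at h0
        exact ha (by rw [h0]; exact IsSquare.zero)
      · rw [ZMod.natCast_zmod_val]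
        exact ha
    classical
    obtain ⟨hn0, hnl, hns⟩ := Nat.find_spec hex
    have hmin := fun m (hm : m < Nat.find hex) => Nat.find_min hex hm
    generalize Nat.find hex = n at hn0 hnl hns hmin
    have hn1 : n ≠ 1 := by
      rintro rfl
      exact hns (by simp)
    have hn2 : IsSquare (((n - 1 : ℕ)) : ZMod l) := by
      by_contra hcon
      exact hmin (n - 1) (by omega) ⟨by omega, by omega, hcon⟩
    have hnl' : ¬ (l : ℤ) ∣ ((n - 1 : ℕ) : ℤ) := by
      intro h5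
      have h6 : l ∣ n - 1 := by exact_mod_cast h5
      have := Nat.le_of_dvd (by omega) h6
      omega
    have hnl'' : ¬ (l : ℤ) ∣ ((n : ℕ) : ℤ) := by
      intro h5
      have h6 : l ∣ n := by exact_mod_cast h5
      have := Nat.le_of_dvd (by omega) h6
      omega
    have hp := Nat.prime_iff_prime_int.1 hl.out
    have e1 : -s * (n : ℤ) + s = -s * ((n - 1 : ℕ) : ℤ) := by
      rw [Nat.cast_sub (by omega)]
      push_cast
      ring
    refine ⟨-s * n, ?_, ?_, ?_, ?_⟩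
    · intro h5
      rcases hp.dvd_or_dvd h5 with h5 | h5
      · exact hs' h5
      · exact hnl'' h5
    · intro h5
      apply hns
      push_cast at h5 h
      have h6 : (-(s : ZMod l)) ≠ 0 := by
        have := zmod_ne (l := l) hs'
        push_cast at this
        exact this
      exact isSquare_cancel h6 h h5
    · rw [e1]
      intro h5
      rcases mul_eq_zero.1 h5 with h5 | h5
      · exact hs' (by rw [h5]; exact dvd_zero _)
      · exact hnl' (by rw [h5]; exact dvd_zero _)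
    · rw [e1, sq_iff h2 (by
        intro h5
        rcases hp.dvd_or_dvd h5 with h5 | h5
        · exact hs' h5
        · exact hnl' h5)]
      rw [Int.cast_mul]
      refine h.mul ?_
      simpa using hn2
  · refine ⟨-s + l ^ 2, ?_, ?_, ?_, ?_⟩
    · intro h5
      have h6 : (l : ℤ) ∣ (l : ℤ) ^ 2 := dvd_pow_self _ (by norm_num)
      exact hs' ((dvd_add_left h6).1 h5)
    · intro h5
      apply h
      push_cast at h5 ⊢
      simpa using h5
    · have : -s + (l : ℤ) ^ 2 + s = (l : ℤ) ^ 2 := by ring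
      rw [this]
      exact pow_ne_zero 2 (by exact_mod_cast hl.out.ne_zero)
    · have : -s + (l : ℤ) ^ 2 + s = (l : ℤ) ^ 2 := by ring
      rw [this]
      push_cast
      exact IsSquare.sq _

theorem all3 : ∀ i j k : Fin 3, i ≠ j → i ≠ k → j ≠ k → ∀ m : Fin 3, m = i ∨ m = j ∨ m = k := by
  decide

theorem prod3 {K : Type} [Field K] : ∀ i j k : Fin 3, i ≠ j → i ≠ k → j ≠ k → ∀ f : Fin 3 → K,
    ∏ m, f m = f i * f j * f k := by
  intro i j k h1 h2 h3 f
  rw [Fin.prod_univ_three]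
  fin_cases i <;> fin_cases j <;> fin_cases k <;> first
    | exact absurd rfl h1
    | exact absurd rfl h2
    | exact absurd rfl h3
    | (simp only [Fin.zero_eta, Fin.mk_one, Fin.reduceFinMk]; try ring)

/-- `z = (l ^ m) ^ 2 u` -/
theorem even_dec {z : ℤ} (hz : z ≠ 0) (he : Even (padicValInt l z)) : ∃ (m : ℕ) (u : ℤ),
    ¬ (l : ℤ) ∣ u ∧ z = ((l : ℤ) ^ m) ^ 2 * u := by
  obtain ⟨m, hm⟩ := he
  obtain ⟨u, hu⟩ := padicValInt_dvd (p := l) z
  refine ⟨m, u, ?_, ?_⟩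
  · rintro ⟨k, hk⟩
    have h1 : (l : ℤ) ^ (padicValInt l z + 1) ∣ z := ⟨k, by rw [pow_succ, mul_assoc, ← hk]; exact hu⟩
    rw [padicValInt_dvd_iff] at h1
    rcases h1 with h1 | h1
    · exact hz h1
    · omega
  · rw [hm] at hu
    rw [← pow_mul, mul_two]
    exact hu

theorem spt_even (h2 : l ≠ 2) {b : Fin 3 → ℤ} {i j k : Fin 3} (hij : i ≠ j) (hik : i ≠ k)
    (hjk : j ≠ k) (d1 : (l : ℤ) ∣ b i - b j) (d3 : ¬ (l : ℤ) ∣ b i - b k) {d : Fin 3 → ℤ}
    (hd : ∀ j, d j ≠ 0) (hk : IsSquare ((d k : ℤ) : ℚ_[l]))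
    (hdd : IsSquare ((d i * d j : ℤ) : ℚ_[l])) (he : Even (padicValInt l (d i))) :
    LocJ ℚ_[l] b d := by
  obtain ⟨m, u, hu, hdi⟩ := even_dec (hd i) he
  have hl0 : ((l : ℕ) : ℚ_[l]) ≠ 0 := by exact_mod_cast hl.out.ne_zero
  have hdi0 : ((d i : ℤ) : ℚ_[l]) ≠ 0 := by exact_mod_cast hd i
  push_cast at hdd
  by_cases hus : IsSquare ((u : ℤ) : ZMod l)
  · -- all classes are trivial
    have h1 : IsSquare ((d i : ℤ) : ℚ_[l]) := by
      rw [hdi]
      push_cast
      exact (IsSquare.sq _).mul ((sq_iff h2 hu).2 hus)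
    have h3 : IsSquare ((d j : ℤ) : ℚ_[l]) := isSquare_cancel hdi0 h1 hdd
    rw [locJ_iff]
    refine LG.congr (fun _ => one_ne_zero) (LG.one _) fun n => ?_
    rw [one_mul]
    rcases all3 i j k hij hik hjk n with rfl | rfl | rfl
    · exact h1
    · exact h3
    · exact hk
  · obtain ⟨X, hX, hXs, hX0, hXsq⟩ := exists_X (l := l) h2 d3
    have hp := Nat.prime_iff_prime_int.1 hl.out
    have hX' : ¬ (l : ℤ) ∣ X + (b i - b j) := fun h => hX ((dvd_add_left d1).1 h)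
    have q1 : IsSquare (((X * u : ℤ)) : ℚ_[l]) := by
      rw [sq_iff h2 (by
        intro h
        rcases hp.dvd_or_dvd h with h | h
        · exact hX h
        · exact hu h)]
      push_cast
      exact sq_mul_ns hXs hus
    have q2 : IsSquare (((X * (X + (b i - b j)) : ℤ)) : ℚ_[l]) := by
      rw [sq_iff h2 (by
        intro h
        rcases hp.dvd_or_dvd h with h | h
        · exact hX h
        · exact hX' h)]
      refine ⟨(X : ZMod l), ?_⟩
      have h0 : ((b i - b j : ℤ) : ZMod l) = 0 := (ZMod.intCast_zmod_eq_zero_iff_dvd _ _).2 d1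
      rw [Int.cast_mul, Int.cast_add, h0, add_zero]
    have hXne : ((X : ℤ) : ℚ_[l]) ≠ 0 := by
      intro h
      have h3 : X = 0 := by exact_mod_cast h
      exact hX (by rw [h3]; exact dvd_zero _)
    have hXne' : ((X + (b i - b j) : ℤ) : ℚ_[l]) ≠ 0 := by
      intro h
      have h3 : X + (b i - b j) = 0 := by exact_mod_cast h
      exact hX' (by rw [h3]; exact dvd_zero _)
    have hXsne : ((X + (b i - b k) : ℤ) : ℚ_[l]) ≠ 0 := by
      exact_mod_cast hX0
    -- the classes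
    have c1 : IsSquare (((X : ℤ) : ℚ_[l]) * ((d i : ℤ) : ℚ_[l])) := by
      have e1 : ((X : ℤ) : ℚ_[l]) * ((d i : ℤ) : ℚ_[l]) =
          (((l : ℕ) : ℚ_[l]) ^ m) ^ 2 * (((X * u : ℤ)) : ℚ_[l]) := by
        rw [hdi]
        push_cast
        ring
      rw [e1]
      exact (IsSquare.sq _).mul q1
    have c2 : IsSquare (((X + (b i - b j) : ℤ) : ℚ_[l]) * ((d j : ℤ) : ℚ_[l])) := by
      have h3 := (q2.mul c1).mul hdd
      have e1 : ((X * (X + (b i - b j)) : ℤ) : ℚ_[l]) * (((X : ℤ) : ℚ_[l]) * ((d i : ℤ) : ℚ_[l])) *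
          (((d i : ℤ) : ℚ_[l]) * ((d j : ℤ) : ℚ_[l])) =
          (((X : ℤ) : ℚ_[l]) * ((d i : ℤ) : ℚ_[l])) ^ 2 *
            (((X + (b i - b j) : ℤ) : ℚ_[l]) * ((d j : ℤ) : ℚ_[l])) := by
        push_cast
        ring
      rw [e1] at h3
      exact isSquare_cancel (pow_ne_zero 2 (mul_ne_zero hXne hdi0)) (IsSquare.sq _) h3
    apply pt_LocJ
    obtain ⟨r, hr⟩ := q2.mul hXsq
    have x1 : ((b i + X : ℤ) : ℚ_[l]) - ((b i : ℤ) : ℚ_[l]) = ((X : ℤ) : ℚ_[l]) := by
      push_cast; ring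
    have x2 : ((b i + X : ℤ) : ℚ_[l]) - ((b j : ℤ) : ℚ_[l]) = ((X + (b i - b j) : ℤ) : ℚ_[l]) := by
      push_cast; ring
    have x3 : ((b i + X : ℤ) : ℚ_[l]) - ((b k : ℤ) : ℚ_[l]) = ((X + (b i - b k) : ℤ) : ℚ_[l]) := by
      push_cast; ring
    refine ⟨((b i + X : ℤ) : ℚ_[l]), r, ?_, ?_, ?_⟩
    · rintro rfl
      rw [mul_zero] at hr
      have h3 : ((X * (X + (b i - b j)) : ℤ) : ℚ_[l]) ≠ 0 := by
        rw [Int.cast_mul]
        exact mul_ne_zero hXne hXne'
      exact mul_ne_zero h3 hXsne hr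
    · rw [prod3 i j k hij hik hjk, x1, x2, x3, pow_two, ← hr]
      push_cast
      ring
    · intro n
      rcases all3 i j k hij hik hjk n with rfl | rfl | rfl
      · rw [x1]; exact c1
      · rw [x2]; exact c2
      · rw [x3]; exact hXsq.mul hk

end

/-- the product over the other indices -/
theorem D3 {K : Type} [Field K] {i j k : Fin 3} (hij : i ≠ j) (hik : i ≠ k) (hjk : j ≠ k)
    (e : Fin 3 → K) : Q182.JQ.ELL.D e i = (e i - e j) * (e i - e k) := by
  unfold Q182.JQ.ELL.D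
  fin_cases i <;> fin_cases j <;> fin_cases k <;> first
    | exact absurd rfl hij
    | exact absurd rfl hik
    | exact absurd rfl hjk
    | (simp [Finset.prod, Finset.erase, Fin.univ_succ]; try ring)

/-- HD-12 (SPT). -/
theorem t_SPT : S_SPT := by
  intro l hl h2 b hb i j k hij hik hjk d1 d2 d3 d4 d hd hk hdd hor
  by_cases he : Even (padicValInt l (d i))
  · exact spt_even h2 hij hik hjk d1 d3 hd hk hdd he
  have hs := hor.resolve_left he
  have n1 : b i - b j ≠ 0 := sub_ne_zero.2 fun h => hij (hb h)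
  have n2 : b i - b k ≠ 0 := sub_ne_zero.2 fun h => hik (hb h)
  -- the class of the point of order two
  let τ : Fin 3 → ℤ := fun n => if n = i then (b i - b j) * (b i - b k) else b i - b n
  have hτi : τ i = (b i - b j) * (b i - b k) := if_pos rfl
  have hτj : τ j = b i - b j := if_neg (Ne.symm hij)
  have hτk : τ k = b i - b k := if_neg (Ne.symm hik)
  have hτ0 : ∀ n, τ n ≠ 0 := by
    intro n
    rcases all3 i j k hij hik hjk n with rfl | rfl | rfl
    · rw [hτi]; exact mul_ne_zero n1 n2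
    · rw [hτj]; exact n1
    · rw [hτk]; exact n2
  have hinj : Function.Injective fun n => ((b n : ℤ) : ℚ_[l]) := by
    intro m n hmn
    exact hb (Int.cast_injective hmn)
  have hPt : LG (fun n => ((b n : ℤ) : ℚ_[l])) (fun n => ((τ n : ℤ) : ℚ_[l])) := by
    rw [← locJ_iff]
    apply pt_LocJ
    have h1 := Pt_tor (H3_padic l) hinj i
    have h3 : (fun n => ((τ n : ℤ) : ℚ_[l])) = fun n => if n = i then
        Q182.JQ.ELL.D (fun n => ((b n : ℤ) : ℚ_[l])) i else
          ((b i : ℤ) : ℚ_[l]) - ((b n : ℤ) : ℚ_[l]) := by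
      funext n
      by_cases hn : n = i
      · rw [if_pos hn, D3 hij hik hjk, hn, hτi]
        push_cast
        rfl
      · rw [if_neg hn]
        show (((if n = i then (b i - b j) * (b i - b k) else b i - b n) : ℤ) : ℚ_[l]) = _
        rw [if_neg hn]
        push_cast
        rfl
    rw [h3]
    exact h1
  -- the valuation of the difference
  have v1 : padicValInt l (b i - b j) = 1 := by
    have h3 : 1 ≤ padicValInt l (b i - b j) := by
      rcases (padicValInt_dvd_iff (p := l) 1 (b i - b j)).1 (by rw [pow_one]; exact d1) with h | h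
      · exact absurd h n1
      · exact h
    have h4 : ¬ 2 ≤ padicValInt l (b i - b j) := fun h =>
      d2 ((padicValInt_dvd_iff (p := l) 2 (b i - b j)).2 (Or.inr h))
    omega
  have v2 : padicValInt l (b i - b k) = 0 := padicValInt.eq_zero_of_not_dvd d3
  have hd' : ∀ n, d n * τ n ≠ 0 := fun n => mul_ne_zero (hd n) (hτ0 n)
  have hev : Even (padicValInt l (d i * τ i)) := by
    rw [hτi, padicValInt.mul (hd i) (mul_ne_zero n1 n2), padicValInt.mul n1 n2, v1, v2, add_zero]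
    rw [Nat.not_even_iff_odd] at he
    exact he.add_odd odd_one
  have hk' : IsSquare (((d k * τ k : ℤ)) : ℚ_[l]) := by
    rw [hτk, Int.cast_mul]
    exact hk.mul hs
  have hdd' : IsSquare (((d i * τ i * (d j * τ j) : ℤ)) : ℚ_[l]) := by
    rw [hτi, hτj]
    have e1 : ((d i * ((b i - b j) * (b i - b k)) * (d j * (b i - b j)) : ℤ) : ℚ_[l]) =
        ((d i * d j : ℤ) : ℚ_[l]) * ((b i - b k : ℤ) : ℚ_[l]) * ((b i - b j : ℤ) : ℚ_[l]) ^ 2 := by
      push_cast
      ring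
    rw [e1]
    exact (hdd.mul hs).mul (IsSquare.sq _)
  have h5 : LocJ ℚ_[l] b fun n => d n * τ n :=
    spt_even h2 hij hik hjk d1 d3 hd' hk' hdd' hev
  rw [locJ_iff] at h5 ⊢
  have h6 := LG.mul (by decide) hinj h5 hPt
  refine LG.congr (fun n => ?_) h6 fun n => ?_
  · have := hd' n
    have := hτ0 n
    exact mul_ne_zero (by exact_mod_cast hd' n) (by exact_mod_cast hτ0 n)
  · refine ⟨((d n : ℤ) : ℚ_[l]) * ((τ n : ℤ) : ℚ_[l]), ?_⟩
    push_cast
    ring

end Pool.Agent.Q206.HD
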