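import Pool.Agent.Q206.HD.Bas

/-!
# Project HD of helper274, job TWA: the form at the prime 2
-/

set_option autoImplicit false
set_option linter.unusedVariables false

namespace Pool.Agent.Q206.HD

open NumberField
open Pool.Agent.Q274.BKC (GK OB Dec Ine)
open Pool.Agent.Q274.HD
open scoped Matrix

theorem toZMod_dot (f t : T2) : PadicInt.toZMod (p := 2) (f ⬝ᵥ t) =
    pr (fun k => PadicInt.toZMod (p := 2) (f k)) t := by
  simp only [dotProduct, pr, map_sum, map_mul]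

/-- the reduction of a surjective form is one of the three forms -/
theorem red_form {L : Fin 3 → Fin 2 → ZMod 2} (h1 : ∀ j, L j ≠ 0) (h2 : Function.Injective L)
    {f : T2} (hf : IsUnit (f 0) ∨ IsUnit (f 1)) :
    ∃ n, ∀ t : T2, (2 : ℤ_[2]) ∣ f ⬝ᵥ t ↔ pr (L n) t = 0 := by
  have hne : (fun k => PadicInt.toZMod (p := 2) (f k)) ≠ 0 := by
    intro h0
    rcases hf with h | h
    · exact (h.map (PadicInt.toZMod (p := 2))).ne_zero (congrFun h0 0)
    · exact (h.map (PadicInt.toZMod (p := 2))).ne_zero (congrFun h0 1)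
  obtain ⟨n, hn⟩ := form_eq L h1 h2 _ hne
  refine ⟨n, fun t => ?_⟩
  rw [two_dvd_iff, toZMod_dot, hn]

/-- the key step -/
theorem twa_aux (hE : S_EMB4) {b : Fin 3 → ℤ} {ρ : Rep} {w : Ideal ZB} {f : T2}
    {L : Fin 3 → Fin 2 → ZMod 2} (hD : Defm b ρ w f) (hL : Dat b ρ L) {n : Fin 3}
    (hn : ∀ t : T2, (2 : ℤ_[2]) ∣ f ⬝ᵥ t ↔ pr (L n) t = 0) (i : Fin 3) (hi : i ≠ n) :
    IsSquare ((5 * (b i - b n) : ℤ) : ℚ_[2]) := by
  have h2w : ((2 : ℕ) : ZB) ∈ w := by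
    have := hD.ord.two
    simpa using this
  refine (hE 2 w hD.ord.max h2w).2 _ ?_
  intro y hy σ hσ
  obtain ⟨ψ, hψ, hψ5⟩ := hD.ord.quo σ hσ
  obtain ⟨t, ht1, ht2⟩ := exists_vec hL.ne hL.inj i
  obtain ⟨u, hu⟩ := hL.two σ t
  have hti : pr (L i) t = 0 := (ht2 i).2 rfl
  have htn : pr (L n) t ≠ 0 := fun h => hi ((ht2 n).1 h).symm
  have hft : ¬ (2 : ℤ_[2]) ∣ f ⬝ᵥ t := fun h => htn ((hn t).1 h)
  -- the equation
  have he : (2 : ℤ_[2]) * (f ⬝ᵥ u) = (ψ - 1) * (f ⬝ᵥ t) := by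
    have h1 := hψ.2 t
    rw [hu, dotProduct_add, dotProduct_smul, smul_eq_mul] at h1
    linear_combination h1
  have hfu : (4 : ℤ_[2]) ∣ ψ - 1 ↔ pr (L n) u = 0 := by
    rw [← hn u]
    have hunit : IsUnit (f ⬝ᵥ t) := by
      rw [PadicInt.isUnit_iff]
      by_contra hcon
      apply hft
      have h3 : ‖f ⬝ᵥ t‖ < 1 := lt_of_le_of_ne (PadicInt.norm_le_one _) hcon
      have := (PadicInt.norm_lt_one_iff_dvd _).1 h3
      simpa using this
    have h4 : (4 : ℤ_[2]) = 2 * 2 := by norm_num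
    have h2 : (2 : ℤ_[2]) ≠ 0 := by norm_num
    rw [← hunit.dvd_mul_right (a := (4 : ℤ_[2])) (b := ψ - 1), ← he, h4]
    exact mul_dvd_mul_iff_left h2
  -- the roots
  obtain ⟨y5, hy5⟩ := IsAlgClosed.exists_pow_nat_eq (5 : QB) (n := 2) (by norm_num)
  obtain ⟨y', hy'⟩ := IsAlgClosed.exists_pow_nat_eq ((b i - b n : ℤ) : QB) (n := 2) (by norm_num)
  have k1 := hψ5 y5 hy5
  have k2 := hL.kum i n hi t u σ ht1 hti hu y' hy'
  have k3 : σ y5 = y5 ↔ σ y' = y' := by rw [k1, k2, hfu]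
  have r5 : σ y5 = y5 ∨ σ y5 = -y5 := root_pm (z := 0) (n := 5) (by rw [hy5]; norm_num) σ
  have r' : σ y' = y' ∨ σ y' = -y' := root_pm (z := 0) hy' σ
  have hprod : σ (y5 * y') = y5 * y' := by
    rw [map_mul]
    by_cases h : σ y5 = y5
    · rw [h, k3.1 h]
    · have h' : ¬ σ y' = y' := fun h' => h (k3.2 h')
      rw [r5.resolve_left h, r'.resolve_left h']
      ring
  have hsq : y ^ 2 = (y5 * y') ^ 2 := by
    rw [hy, mul_pow, hy5, hy']
    push_cast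
    ring
  rcases sq_eq_sq_iff_eq_or_eq_neg.1 hsq with h | h
  · rw [h, hprod]
  · rw [h, map_neg, hprod]

/-- HD-17 (TWA). -/
theorem t_TWA : S_TWA := by
  intro hE b ρ w f L hb hD hL m hm
  obtain ⟨ψ, hψ, -⟩ := hD.ord.quo 1 (one_dec w)
  obtain ⟨n, hn⟩ := red_form hL.ne hL.inj hψ.1
  have hnm : n = m := by
    by_contra hne
    have h1 := twa_aux hE hD hL hn m (Ne.symm hne)
    have h2 := hm n hne
    have h3 := h1.mul h2
    have h4 : ((5 * (b m - b n) : ℤ) : ℚ_[2]) * ((5 * (b n - b m) : ℤ) : ℚ_[2]) =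
        (-1) * ((5 * (b m - b n) : ℤ) : ℚ_[2]) ^ 2 := by
      push_cast
      ring
    rw [h4] at h3
    have h5 : ((5 * (b m - b n) : ℤ) : ℚ_[2]) ≠ 0 := by
      rw [Int.cast_ne_zero]
      intro h6
      have h7 : b m - b n = 0 := by omega
      exact hne (hb (by omega))
    obtain ⟨r, hr⟩ := h3
    apply neg_one_not_sq
    refine ⟨r / ((5 * (b m - b n) : ℤ) : ℚ_[2]), ?_⟩
    rw [div_mul_div_comm, ← hr, ← pow_two]
    field_simp
  rw [← hnm]
  exact hn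

end Pool.Agent.Q206.HD
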